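import Pool.Agent.H85.LK.Targets

set_option autoImplicit false

open MeasureTheory Metric Set ProbabilityTheory
open scoped ENNReal

namespace Pool.Agent.H27.LK
open Pool.Agent.H85.LK

theorem refl_mp {N : ℕ} (e : E N) (h : ℝ) (he : ‖e‖ = 1) :
    MeasurePreserving (H85.LK.refl e h) volume volume := by
  have h1 : H85.LK.refl e h = (fun x : E N => x + (2 * h) • e) ∘ ((Submodule.span ℝ {e})ᗮ.reflection) := by
    funext x
    simp only [Function.comp, H85.LK.refl]
    rw [Submodule.reflection_orthogonal_apply, Submodule.reflection_singleton_apply, he]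
    rw [real_inner_comm x e]
    simp only [RCLike.ofReal_real_eq_id, id, one_pow, div_one]
    module
  rw [h1]
  exact (measurePreserving_add_right volume _).comp (LinearIsometryEquiv.measurePreserving _)

theorem inner_refl {N : ℕ} (e : E N) (h : ℝ) (he : ‖e‖ = 1) (x : E N) :
    (inner ℝ (H85.LK.refl e h x) e : ℝ) = 2 * h - inner ℝ x e := by
  have h2 : (inner ℝ e e : ℝ) = 1 := by rw [real_inner_self_eq_norm_sq, he]; norm_num
  simp only [H85.LK.refl, inner_sub_left, real_inner_smul_left, h2]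
  ring

theorem refl_refl {N : ℕ} (e : E N) (h : ℝ) (he : ‖e‖ = 1) (x : E N) :
    H85.LK.refl e h (H85.LK.refl e h x) = x := by
  have h1 := inner_refl e h he x
  have h2 : H85.LK.refl e h (H85.LK.refl e h x) = H85.LK.refl e h x - (2 * ((inner ℝ (H85.LK.refl e h x) e : ℝ) - h)) • e := rfl
  rw [h2, h1]
  simp only [H85.LK.refl]
  module

theorem normsq_refl {N : ℕ} (e : E N) (h : ℝ) (he : ‖e‖ = 1) (x : E N) :
    ‖H85.LK.refl e h x‖ ^ 2 = ‖x‖ ^ 2 - 4 * h * (inner ℝ x e - h) := by
  have h2 : (inner ℝ e e : ℝ) = 1 := by rw [real_inner_self_eq_norm_sq, he]; norm_num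
  have h3 := @norm_sub_sq_real (E N) _ _ x ((2 * ((inner ℝ x e : ℝ) - h)) • e)
  simp only [H85.LK.refl]
  rw [h3, real_inner_smul_right, norm_smul, mul_pow, he, Real.norm_eq_abs, sq_abs]
  ring

theorem refl_meas {N : ℕ} (e : E N) (h : ℝ) : Measurable (H85.LK.refl e h) := by
  unfold H85.LK.refl
  fun_prop

/-- step 1 -/
theorem step1 {N : ℕ} (e : E N) (h r : ℝ) (A : Set (E N)) (he : ‖e‖ = 1) (hh : 0 < h)
    (hr : 0 < r) (hA : MeasurableSet A) :
    volume (A ∩ ball 0 r) + volume {x : E N | x ∈ ball (0 : E N) r \ A ∧ H85.LK.refl e h x ∈ A \ ball 0 r}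
      ≤ volume (pol e h A ∩ ball 0 r) := by
  set B : Set (E N) := ball 0 r with hB
  have hBm : MeasurableSet B := measurableSet_ball
  have hsm := refl_meas e h
  have hHm : MeasurableSet {x : E N | (inner ℝ x e : ℝ) < h} := by
    apply measurableSet_lt <;> fun_prop
  set H : Set (E N) := {x : E N | (inner ℝ x e : ℝ) < h} with hH
  set Q1 : Set (E N) := (A ∩ B ∩ Hᶜ) \ ((H85.LK.refl e h) ⁻¹' A) with hQ1
  have hQ1m : MeasurableSet Q1 := ((hA.inter hBm).inter hHm.compl).diff (hsm hA)
  have hQ : volume ((H85.LK.refl e h) ⁻¹' Q1) = volume Q1 :=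
    (refl_mp e h he).measure_preimage hQ1m.nullMeasurableSet
  set P : Set (E N) := {x : E N | x ∈ B \ A ∧ H85.LK.refl e h x ∈ A \ B} with hP
  have hPm : MeasurableSet P := (hBm.diff hA).inter (hsm (hA.diff hBm))
  have hdec : volume (A ∩ B) = volume (A ∩ B ∩ H) + (volume (A ∩ B ∩ Hᶜ ∩ (H85.LK.refl e h) ⁻¹' A) +
      volume Q1) := by
    rw [hQ1, measure_inter_add_diff _ (hsm hA)]
    have h1 := measure_inter_add_diff (μ := volume) (A ∩ B) hHm
    rw [← h1, Set.diff_eq]
  rw [hdec, ← hQ]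
  have hbn : ∀ x : E N, x ∈ B ↔ ‖x‖ ^ 2 < r ^ 2 := by
    intro x
    rw [hB, mem_ball_zero_iff]
    constructor
    · intro hx
      exact pow_lt_pow_left₀ hx (norm_nonneg _) (by norm_num)
    · intro hx
      exact lt_of_pow_lt_pow_left₀ 2 hr.le hx
  -- union of four disjoint sets
  have hd1 : Disjoint (A ∩ B ∩ H) (A ∩ B ∩ Hᶜ ∩ (H85.LK.refl e h) ⁻¹' A) := by
    rw [Set.disjoint_left]
    rintro x ⟨_, hx⟩ ⟨⟨_, hx'⟩, _⟩
    exact hx' hx
  have hQsub : ∀ y ∈ (H85.LK.refl e h) ⁻¹' Q1, y ∈ H ∧ y ∈ B ∧ y ∉ A ∧ H85.LK.refl e h y ∈ A ∧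
      H85.LK.refl e h y ∈ B := by
    rintro y ⟨⟨⟨h1, h2⟩, h3⟩, h4⟩
    have h4' : y ∉ A := by
      intro hy
      apply h4
      show H85.LK.refl e h (H85.LK.refl e h y) ∈ A
      rw [refl_refl e h he]
      exact hy
    have h3' : h ≤ (inner ℝ (H85.LK.refl e h y) e : ℝ) := not_lt.mp h3
    rw [inner_refl e h he] at h3'
    have h5 : (inner ℝ y e : ℝ) ≤ h := by linarith
    have h6 : (inner ℝ y e : ℝ) < h := by
      rcases lt_or_eq_of_le h5 with h6 | h6
      · exact h6
      · exfalso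
        apply h4'
        have : H85.LK.refl e h y = y := by
          simp only [H85.LK.refl, h6, sub_self, mul_zero, zero_smul, sub_zero]
        rw [this] at h1
        exact h1
    refine ⟨h6, ?_, h4', h1, h2⟩
    rw [hbn] at h2 ⊢
    rw [normsq_refl e h he] at h2
    nlinarith [mul_pos hh (sub_pos.mpr h6)]
  have hPsub : ∀ x ∈ P, x ∈ H ∧ x ∈ B ∧ x ∉ A ∧ H85.LK.refl e h x ∈ A ∧ H85.LK.refl e h x ∉ B := by
    rintro x ⟨⟨h1, h2⟩, h3, h4⟩
    refine ⟨?_, h1, h2, h3, h4⟩
    rw [hbn] at h1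
    rw [hbn, normsq_refl e h he] at h4
    show (inner ℝ x e : ℝ) < h
    by_contra hcon
    have : 0 ≤ h * ((inner ℝ x e : ℝ) - h) := mul_nonneg hh.le (by linarith [not_lt.mp hcon])
    apply h4
    nlinarith
  have hd2 : Disjoint (A ∩ B ∩ Hᶜ ∩ (H85.LK.refl e h) ⁻¹' A) ((H85.LK.refl e h) ⁻¹' Q1) := by
    rw [Set.disjoint_left]
    rintro x ⟨⟨_, hx'⟩, _⟩ hq
    exact hx' (hQsub x hq).1
  have hd3 : Disjoint (A ∩ B ∩ H) ((H85.LK.refl e h) ⁻¹' Q1) := by
    rw [Set.disjoint_left]
    rintro x ⟨⟨hx', _⟩, _⟩ hq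
    exact (hQsub x hq).2.2.1 hx'
  have hd4 : Disjoint ((A ∩ B ∩ H) ∪ ((A ∩ B ∩ Hᶜ ∩ (H85.LK.refl e h) ⁻¹' A) ∪ (H85.LK.refl e h) ⁻¹' Q1)) P := by
    rw [Set.disjoint_left]
    rintro x hx hp
    have hp' := hPsub x hp
    rcases hx with hx | hx | hx
    · exact hp'.2.2.1 hx.1.1
    · exact hp'.2.2.1 hx.1.1.1
    · exact hp'.2.2.2.2 (hQsub x hx).2.2.2.2
  have hQm : MeasurableSet ((H85.LK.refl e h) ⁻¹' Q1) := hsm hQ1m
  rw [← measure_union hd2 hQm, ← measure_union (by
      rw [Set.disjoint_union_right]; exact ⟨hd1, hd3⟩)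
      ((((hA.inter hBm).inter hHm.compl).inter (hsm hA)).union hQm),
    ← measure_union hd4 hPm]
  apply measure_mono
  rintro x (hx | hx)
  · rcases hx with hx | hx | hx
    · exact ⟨Or.inl ⟨hx.2, Or.inl hx.1.1⟩, hx.1.2⟩
    · exact ⟨Or.inr ⟨not_lt.mp hx.1.2, hx.1.1.1, hx.2⟩, hx.1.1.2⟩
    · have := hQsub x hx
      exact ⟨Or.inl ⟨this.1, Or.inr this.2.2.2.1⟩, this.2.1⟩
  · have := hPsub x hx
    exact ⟨Or.inl ⟨this.1, Or.inr this.2.2.2.1⟩, this.2.1⟩


theorem inner_change (g : ℝ → ℝ≥0∞) (hg : Measurable g) (a : ℝ) :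
    ∫⁻ t in Ioi (0 : ℝ), g t = 2 * ∫⁻ h, (Ioi (0 : ℝ)).indicator g (2 * (h - a)) := by
  have hm : Measurable ((Ioi (0 : ℝ)).indicator g) := hg.indicator measurableSet_Ioi
  rw [← lintegral_indicator measurableSet_Ioi]
  have h1 : ∫⁻ h, (Ioi (0 : ℝ)).indicator g (2 * (h - a)) =
      ∫⁻ h, (Ioi (0 : ℝ)).indicator g (2 * h) :=
    lintegral_sub_right_eq_self (fun h => (Ioi (0 : ℝ)).indicator g (2 * h)) a
  rw [h1]
  have h2 : ∫⁻ h, (Ioi (0 : ℝ)).indicator g (2 * h) =
      ∫⁻ h, (Ioi (0 : ℝ)).indicator g h ∂(Measure.map (2 * ·) volume) := by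
    rw [lintegral_map hm (by fun_prop)]
  rw [h2, Real.map_volume_mul_left (by norm_num : (2 : ℝ) ≠ 0), lintegral_smul_measure,
    smul_eq_mul, ← mul_assoc]
  have h3 : (2 : ℝ≥0∞) * ENNReal.ofReal |(2 : ℝ)⁻¹| = 1 := by
    have : (2 : ℝ≥0∞) = ENNReal.ofReal 2 := by simp
    rw [this, ← ENNReal.ofReal_mul (by norm_num)]
    norm_num
  rw [h3, one_mul]

/-- step 2 -/
theorem step2 (hPLR : T_PLR) {N : ℕ} (hN : 1 ≤ N) (ρ r : ℝ) (hρ : 0 < ρ) (hr : 0 < r)
    (hrρ : r ≤ ρ) (A : Set (E N)) (hA : MeasurableSet A) (hAρ : A ⊆ ball 0 ρ)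
    (x : E N) (hx : x ∈ ball (0 : E N) r) :
    volume (A \ ball 0 r) ≤ ENNReal.ofReal (2 * (2 * ρ) ^ (N - 1)) *
      ∫⁻ θ : sphere (0 : E N) 1, (∫⁻ h in Ioo (0 : ℝ) ρ,
        (A \ ball 0 r).indicator 1 (H85.LK.refl (θ : E N) h x))
          ∂((volume : Measure (E N)).toSphere) := by
  have hGm : MeasurableSet (A \ ball (0 : E N) r) := hA.diff measurableSet_ball
  set G : Set (E N) := A \ ball 0 r with hG
  have hone : Measurable (G.indicator (1 : E N → ℝ≥0∞)) := measurable_one.indicator hGm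
  rw [← lintegral_indicator_one hGm, ← lintegral_add_left_eq_self _ x,
    hPLR N hN (fun y => G.indicator 1 (x + y)) (hone.comp (by fun_prop)),
    ← lintegral_const_mul' _ _ ENNReal.ofReal_ne_top]
  apply lintegral_mono
  intro θ
  have hθ : ‖(θ : E N)‖ = 1 := by
    have := θ.2
    rwa [mem_sphere_zero_iff_norm] at this
  have hθ2 : (inner ℝ (θ : E N) (θ : E N) : ℝ) = 1 := by
    rw [real_inner_self_eq_norm_sq, hθ]; norm_num
  have hgm : Measurable (fun t : ℝ => G.indicator (1 : E N → ℝ≥0∞) (x + t • (θ : E N))) :=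
    hone.comp (by fun_prop)
  have hxr : ‖x‖ < r := by rwa [mem_ball_zero_iff] at hx
  calc ∫⁻ t in Ioi (0 : ℝ), ENNReal.ofReal (t ^ (N - 1)) * G.indicator 1 (x + t • (θ : E N))
      ≤ ∫⁻ t in Ioi (0 : ℝ), ENNReal.ofReal ((2 * ρ) ^ (N - 1)) *
          G.indicator 1 (x + t • (θ : E N)) := by
        apply setLIntegral_mono' measurableSet_Ioi
        intro t ht
        by_cases hy : x + t • (θ : E N) ∈ G
        · apply mul_le_mul_left
          apply ENNReal.ofReal_le_ofReal
          apply pow_le_pow_left₀ (le_of_lt ht)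
          have h1 := hAρ hy.1
          rw [mem_ball_zero_iff] at h1
          have h2 : t = ‖(x + t • (θ : E N)) - x‖ := by
            rw [add_sub_cancel_left, norm_smul, hθ, mul_one, Real.norm_eq_abs,
              abs_of_pos ht]
          rw [h2]
          have h3 := norm_sub_le (x + t • (θ : E N)) x
          linarith
        · simp [Set.indicator_of_notMem hy]
    _ = ENNReal.ofReal ((2 * ρ) ^ (N - 1)) *
        ∫⁻ t in Ioi (0 : ℝ), G.indicator 1 (x + t • (θ : E N)) :=
        lintegral_const_mul' _ _ ENNReal.ofReal_ne_top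
    _ = ENNReal.ofReal ((2 * ρ) ^ (N - 1)) * (2 * ∫⁻ h, (Ioi (0 : ℝ)).indicator
          (fun t : ℝ => G.indicator (1 : E N → ℝ≥0∞) (x + t • (θ : E N)))
            (2 * (h - inner ℝ x (θ : E N)))) := by
        rw [inner_change _ hgm]
    _ ≤ ENNReal.ofReal ((2 * ρ) ^ (N - 1)) * (2 * ∫⁻ h in Ioo (0 : ℝ) ρ,
          G.indicator 1 (H85.LK.refl (θ : E N) h x)) := by
        refine mul_le_mul' le_rfl (mul_le_mul' le_rfl ?_)
        rw [← lintegral_indicator measurableSet_Ioo]
        apply lintegral_mono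
        intro h
        simp only [Set.indicator_apply, Pi.one_apply]
        have heq : H85.LK.refl (θ : E N) h x =
            x + (2 * (h - inner ℝ x (θ : E N))) • (θ : E N) := by
          simp only [H85.LK.refl]
          module
        by_cases h1 : 2 * (h - inner ℝ x (θ : E N)) ∈ Ioi (0 : ℝ)
        · by_cases h2 : x + (2 * (h - inner ℝ x (θ : E N))) • (θ : E N) ∈ G
          · have hns := normsq_refl (θ : E N) h hθ x
            have hin := inner_refl (θ : E N) h hθ x
            rw [← heq] at h2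
            have h3 : r ≤ ‖H85.LK.refl (θ : E N) h x‖ := by
              have := h2.2
              rw [mem_ball_zero_iff] at this
              exact not_lt.mp this
            have h4 : ‖H85.LK.refl (θ : E N) h x‖ < ρ := by
              have := hAρ h2.1
              rwa [mem_ball_zero_iff] at this
            have h1' : 0 < h - inner ℝ x (θ : E N) := by
              have : 0 < 2 * (h - inner ℝ x (θ : E N)) := h1
              linarith
            have h5 : ‖x‖ ^ 2 < ‖H85.LK.refl (θ : E N) h x‖ ^ 2 :=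
              pow_lt_pow_left₀ (lt_of_lt_of_le hxr h3) (norm_nonneg _) (by norm_num)
            have h6 : 0 < h := by
              by_contra hcon
              have h7 : h * (h - inner ℝ x (θ : E N)) ≤ 0 :=
                mul_nonpos_of_nonpos_of_nonneg (not_lt.mp hcon) h1'.le
              nlinarith
            have h8 : (inner ℝ x (θ : E N) : ℝ) ≤ ‖x‖ := by
              have := real_inner_le_norm x (θ : E N)
              rwa [hθ, mul_one] at this
            have h9 : (inner ℝ (H85.LK.refl (θ : E N) h x) (θ : E N) : ℝ) ≤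
                ‖H85.LK.refl (θ : E N) h x‖ := by
              have := real_inner_le_norm (H85.LK.refl (θ : E N) h x) (θ : E N)
              rwa [hθ, mul_one] at this
            have h10 : h < ρ := by linarith
            have h11 : h ∈ Ioo (0 : ℝ) ρ := ⟨h6, h10⟩
            rw [if_pos h1, if_pos h11, heq]
          · rw [if_pos h1, Set.indicator_of_notMem h2]
            exact zero_le
        · rw [if_neg h1]
          exact zero_le
    _ = ENNReal.ofReal (2 * (2 * ρ) ^ (N - 1)) * ∫⁻ h in Ioo (0 : ℝ) ρ,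
          G.indicator 1 (H85.LK.refl (θ : E N) h x) := by
        have h12 : ENNReal.ofReal (2 * (2 * ρ) ^ (N - 1)) =
            2 * ENNReal.ofReal ((2 * ρ) ^ (N - 1)) := by
          rw [ENNReal.ofReal_mul (by norm_num)]
          simp
        rw [← mul_assoc, mul_comm (ENNReal.ofReal ((2 * ρ) ^ (N - 1))) 2, h12]

/-- **GRD**: greedy step -/
theorem pf_GRD (hPVO : T_PVO) (hPLR : T_PLR) : T_GRD := by
  intro N ρ hN hρ
  set S : ℝ := ((volume : Measure (E N)).toSphere).real univ with hS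
  have hS0 : 0 ≤ S := measureReal_nonneg
  have hpw : 0 < (2 * ρ) ^ (N - 1) := by positivity
  refine ⟨1 / (4 * (2 * ρ) ^ (N - 1) * ρ * (S + 1)), by positivity, ?_⟩
  intro r A hr hrρ hA hAρ hvol
  set c : ℝ := 1 / (4 * (2 * ρ) ^ (N - 1) * ρ * (S + 1)) with hc
  set B : Set (E N) := ball 0 r with hB
  have hBm : MeasurableSet B := measurableSet_ball
  have hBfin : volume B ≠ ⊤ := measure_ball_lt_top.ne
  have hAfin : volume A ≠ ⊤ := by rw [hvol]; exact hBfin
  have hGm : MeasurableSet (A \ B) := hA.diff hBm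
  have hFm : MeasurableSet (B \ A) := hBm.diff hA
  have hGfin : volume (A \ B) ≠ ⊤ := ne_top_of_le_ne_top hAfin (measure_mono diff_subset)
  have hFfin : volume (B \ A) ≠ ⊤ := ne_top_of_le_ne_top hBfin (measure_mono diff_subset)
  have hABfin : volume (A ∩ B) ≠ ⊤ := ne_top_of_le_ne_top hAfin (measure_mono inter_subset_left)
  have hAr : volume.real A = volume.real B := by
    unfold Measure.real
    rw [hvol]
  have e1 : volume.real (A ∩ B) + volume.real (A \ B) = volume.real A :=
    measureReal_inter_add_diff hBm hAfin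
  have e2 : volume.real (A ∩ B) + volume.real (B \ A) = volume.real B := by
    rw [inter_comm]
    exact measureReal_inter_add_diff hA hBfin
  have hFG : volume.real (B \ A) = volume.real (A \ B) := by linarith
  -- consequence of step 1
  have key : ∀ (e : E N) (h : ℝ), ‖e‖ = 1 → 0 < h →
      volume.real (pol e h A \ B) ≤ volume.real (A \ B) -
        volume.real {x : E N | x ∈ B \ A ∧ H85.LK.refl e h x ∈ A \ B} := by
    intro e h he hh
    obtain ⟨hpm, hpρ, hpv⟩ := hPVO N e h ρ A he hh hA hAρ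
    have hpfin : volume (pol e h A) ≠ ⊤ := by rw [hpv]; exact hAfin
    have s1 := step1 e h r A he hh hr hA
    have hPfin : volume {x : E N | x ∈ B \ A ∧ H85.LK.refl e h x ∈ A \ B} ≠ ⊤ :=
      ne_top_of_le_ne_top hFfin (measure_mono (fun x hx => hx.1))
    have hpBfin : volume (pol e h A ∩ B) ≠ ⊤ :=
      ne_top_of_le_ne_top hpfin (measure_mono inter_subset_left)
    have s2 : volume.real (A ∩ B) +
        volume.real {x : E N | x ∈ B \ A ∧ H85.LK.refl e h x ∈ A \ B} ≤
          volume.real (pol e h A ∩ B) := by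
      unfold Measure.real
      rw [← ENNReal.toReal_add hABfin hPfin]
      exact ENNReal.toReal_mono hpBfin s1
    have s3 : volume.real (pol e h A ∩ B) + volume.real (pol e h A \ B) =
        volume.real (pol e h A) := measureReal_inter_add_diff hBm hpfin
    have s4 : volume.real (pol e h A) = volume.real A := by
      unfold Measure.real
      rw [hpv]
    linarith
  rcases eq_or_ne (volume.real (A \ B)) 0 with hg0 | hg0
  · -- trivial case
    haveI : Nonempty (Fin N) := ⟨⟨0, hN⟩⟩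
    obtain ⟨e, he⟩ := exists_norm_eq (E N) (zero_le_one (α := ℝ))
    refine ⟨e, 1, he, one_pos, ?_⟩
    have := key e 1 he one_pos
    have h2 : 0 ≤ volume.real {x : E N | x ∈ B \ A ∧ H85.LK.refl e 1 x ∈ A \ B} :=
      measureReal_nonneg
    rw [hg0] at this ⊢
    simp only [ne_eq, OfNat.ofNat_ne_zero, not_false_eq_true, zero_pow, mul_zero, sub_zero]
    linarith
  have hgpos : 0 < volume.real (A \ B) := lt_of_le_of_ne measureReal_nonneg (Ne.symm hg0)
  by_contra hcon
  push Not at hcon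
  -- all the sets are small
  have small : ∀ (θ : sphere (0 : E N) 1) (h : ℝ), h ∈ Ioo (0 : ℝ) ρ →
      ∫⁻ x in B \ A, (A \ B).indicator 1 (H85.LK.refl (θ : E N) h x) ≤
        ENNReal.ofReal (c * volume.real (A \ B) ^ 2) := by
    intro θ h hh
    have hθ : ‖(θ : E N)‖ = 1 := by
      have := θ.2
      rwa [mem_sphere_zero_iff_norm] at this
    have h1 := hcon θ h hθ hh.1
    have h2 := key θ h hθ hh.1
    have h3 : volume.real {x : E N | x ∈ B \ A ∧ H85.LK.refl (θ : E N) h x ∈ A \ B} ≤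
        c * volume.real (A \ B) ^ 2 := by linarith
    have hPfin : volume {x : E N | x ∈ B \ A ∧ H85.LK.refl (θ : E N) h x ∈ A \ B} ≠ ⊤ :=
      ne_top_of_le_ne_top hFfin (measure_mono (fun x hx => hx.1))
    have hsm := refl_meas (θ : E N) h
    have h4 : ∫⁻ x in B \ A, (A \ B).indicator 1 (H85.LK.refl (θ : E N) h x) =
        volume {x : E N | x ∈ B \ A ∧ H85.LK.refl (θ : E N) h x ∈ A \ B} := by
      rw [← lintegral_indicator hFm, ← lintegral_indicator_one]
      · apply lintegral_congr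
        intro x
        by_cases hx : x ∈ B \ A
        · by_cases hy : H85.LK.refl (θ : E N) h x ∈ A \ B
          · rw [Set.indicator_of_mem hx, Set.indicator_of_mem hy, Set.indicator_of_mem]
            · rfl
            · exact ⟨hx, hy⟩
          · rw [Set.indicator_of_mem hx, Set.indicator_of_notMem hy, Set.indicator_of_notMem]
            exact fun hz => hy hz.2
        · rw [Set.indicator_of_notMem hx, Set.indicator_of_notMem]
          exact fun hz => hx hz.1
      · exact hFm.inter (hsm hGm)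
    rw [h4, ← ENNReal.ofReal_toReal hPfin]
    exact ENNReal.ofReal_le_ofReal h3
  -- the average
  set σ : Measure (sphere (0 : E N) 1) := (volume : Measure (E N)).toSphere with hσ
  set C : ℝ := 2 * (2 * ρ) ^ (N - 1) with hC
  have hjm : Measurable (Function.uncurry (fun (x : E N) (q : sphere (0 : E N) 1 × ℝ) =>
      (A \ B).indicator (1 : E N → ℝ≥0∞) (H85.LK.refl (q.1 : E N) q.2 x))) := by
    have h1 : Measurable (fun p : E N × (sphere (0 : E N) 1 × ℝ) =>
        H85.LK.refl (p.2.1 : E N) p.2.2 p.1) := by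
      unfold H85.LK.refl
      fun_prop
    exact (measurable_one.indicator hGm).comp h1
  have avg : volume (B \ A) * volume (A \ B) ≤
      ENNReal.ofReal C * ∫⁻ q : sphere (0 : E N) 1 × ℝ,
        (∫⁻ x in B \ A, (A \ B).indicator 1 (H85.LK.refl (q.1 : E N) q.2 x))
          ∂(σ.prod (volume.restrict (Ioo (0 : ℝ) ρ))) := by
    calc volume (B \ A) * volume (A \ B) = ∫⁻ x in B \ A, volume (A \ B) := by
          rw [setLIntegral_const, mul_comm]
      _ ≤ ∫⁻ x in B \ A, ENNReal.ofReal C * ∫⁻ θ : sphere (0 : E N) 1,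
            (∫⁻ h in Ioo (0 : ℝ) ρ, (A \ B).indicator 1 (H85.LK.refl (θ : E N) h x)) ∂σ := by
          apply setLIntegral_mono' hFm
          intro x hx
          exact step2 hPLR hN ρ r hρ hr hrρ A hA hAρ x hx.1
      _ = ENNReal.ofReal C * ∫⁻ x in B \ A, ∫⁻ θ : sphere (0 : E N) 1,
            (∫⁻ h in Ioo (0 : ℝ) ρ, (A \ B).indicator 1 (H85.LK.refl (θ : E N) h x)) ∂σ :=
          lintegral_const_mul' _ _ ENNReal.ofReal_ne_top
      _ = ENNReal.ofReal C * ∫⁻ x in B \ A, ∫⁻ q : sphere (0 : E N) 1 × ℝ,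
            (A \ B).indicator 1 (H85.LK.refl (q.1 : E N) q.2 x)
              ∂(σ.prod (volume.restrict (Ioo (0 : ℝ) ρ))) := by
          congr 1
          apply lintegral_congr
          intro x
          rw [lintegral_prod]
          exact (hjm.comp (measurable_const.prodMk measurable_id)).aemeasurable
      _ = _ := by
          congr 1
          exact lintegral_lintegral_swap hjm.aemeasurable
  have hsmall2 : ∫⁻ q : sphere (0 : E N) 1 × ℝ,
        (∫⁻ x in B \ A, (A \ B).indicator 1 (H85.LK.refl (q.1 : E N) q.2 x))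
          ∂(σ.prod (volume.restrict (Ioo (0 : ℝ) ρ))) ≤
      ENNReal.ofReal (c * volume.real (A \ B) ^ 2) *
        (σ.prod (volume.restrict (Ioo (0 : ℝ) ρ))) univ := by
    rw [← lintegral_const]
    apply lintegral_mono_ae
    have hrw : σ.prod (volume.restrict (Ioo (0 : ℝ) ρ)) =
        (σ.prod volume).restrict (univ ×ˢ Ioo (0 : ℝ) ρ) := by
      rw [← Measure.prod_restrict, Measure.restrict_univ]
    rw [hrw]
    refine (ae_restrict_mem (MeasurableSet.univ.prod measurableSet_Ioo)).mono ?_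
    intro q hq
    exact small q.1 q.2 hq.2
  have hmass : (σ.prod (volume.restrict (Ioo (0 : ℝ) ρ))) univ = ENNReal.ofReal (S * ρ) := by
    rw [← univ_prod_univ, Measure.prod_prod, Measure.restrict_apply_univ, Real.volume_Ioo,
      sub_zero, ENNReal.ofReal_mul hS0, hS, ofReal_measureReal]
  rw [hmass] at hsmall2
  have hfin : volume (B \ A) * volume (A \ B) ≤
      ENNReal.ofReal (C * (c * volume.real (A \ B) ^ 2 * (S * ρ))) := by
    have hC0 : 0 ≤ C := by positivity
    have hc0 : 0 ≤ c := by positivity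
    have h1 : ENNReal.ofReal (C * (c * volume.real (A \ B) ^ 2 * (S * ρ))) =
        ENNReal.ofReal C * (ENNReal.ofReal (c * volume.real (A \ B) ^ 2) *
          ENNReal.ofReal (S * ρ)) := by
      rw [ENNReal.ofReal_mul hC0, ENNReal.ofReal_mul (by positivity : 0 ≤ c * _)]
    rw [h1]
    exact avg.trans (mul_le_mul' le_rfl hsmall2)
  have hL : volume (B \ A) * volume (A \ B) = ENNReal.ofReal (volume.real (A \ B) ^ 2) := by
    rw [pow_two, ENNReal.ofReal_mul measureReal_nonneg]
    congr 1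
    · rw [← hFG, ofReal_measureReal hFfin]
    · rw [ofReal_measureReal hGfin]
  rw [hL] at hfin
  have hfin2 := (ENNReal.ofReal_le_ofReal_iff (by positivity)).mp hfin
  have hval : C * (c * volume.real (A \ B) ^ 2 * (S * ρ)) =
      volume.real (A \ B) ^ 2 * (S / (2 * (S + 1))) := by
    rw [hC, hc]
    field_simp
    ring
  rw [hval] at hfin2
  have hlt : S / (2 * (S + 1)) < 1 := by
    rw [div_lt_one (by positivity)]
    linarith
  have hg2 : 0 < volume.real (A \ B) ^ 2 := by positivity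
  nlinarith

end Pool.Agent.H27.LK
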